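import Pool.Agent.W2helper75.FD.Stm3
import Pool.Agent.W2helper47.FD.Trn

/-!
# PIECE TRN3 of project FD: TRN with a finite set of starting points
-/

set_option autoImplicit false
set_option linter.unusedSectionVars false

open MeasureTheory ProbabilityTheory Filter Topology
open scoped ENNReal NNReal

namespace Pool.Agent.W2helper85.FD

open Pool.Agent.W2helper75.FD Pool.Agent.W2helper47.FD

variable {X S : Type} [Fintype S] [Nonempty S] (mx : X → S → X) (inv : S → S)

/-- the Green function of the set `Z` -/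
noncomputable def gz (Z : Finset X) (n : ℕ) (x : X) : ℝ := ∑ z ∈ Z, gr mx z n x

lemma gz_nonneg (Z : Finset X) (n : ℕ) (x : X) : 0 ≤ gz mx Z n x :=
  Finset.sum_nonneg fun z _ => gr_nonneg mx z n x

lemma gz_fin (h1 : ∀ s, inv (inv s) = s) (h2 : ∀ x s, mx (mx x s) (inv s) = x) (Z : Finset X)
    (n : ℕ) : (Function.support (gz mx Z n)).Finite := by
  refine (Set.Finite.biUnion Z.finite_toSet
    fun z _ => gr_fin mx inv z h1 h2 n).subset fun x hx => ?_
  by_contra hne
  apply hx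
  unfold gz
  refine Finset.sum_eq_zero fun z hz => ?_
  by_contra h0
  exact hne (Set.mem_biUnion hz h0)

lemma sum_gz (h1 : ∀ s, inv (inv s) = s) (h2 : ∀ x s, mx (mx x s) (inv s) = x) (Z : Finset X)
    (n : ℕ) : ∑' x, gz mx Z n x = Z.card * n := by
  unfold gz
  rw [Summable.tsum_finsetSum fun z _ => sm _ (gr_fin mx inv z h1 h2 n) fun _ h => h]
  simp [sum_gr mx inv _ h1 h2]

lemma en_gz (h1 : ∀ s, inv (inv s) = s) (h2 : ∀ x s, mx (mx x s) (inv s) = x) (Z : Finset X)
    (n : ℕ) : en mx (gz mx Z n) ≤ 2 * Fintype.card S * ∑ z ∈ Z, gz mx Z n z := by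
  have hf := gz_fin mx inv h1 h2 Z n
  rw [(en_gen mx inv h1 h2 (gz mx Z n) hf).2]
  have s1 : Summable fun x => gz mx Z n x ^ 2 := sm _ hf fun x h => by simp [h]
  have s4 : ∀ z, Summable fun x => gz mx Z n x * qq mx z 0 x := fun z =>
    sm _ hf fun x h => by simp [h]
  have s4' : Summable fun x => gz mx Z n x * ∑ z ∈ Z, qq mx z 0 x :=
    sm _ hf fun x h => by simp [h]
  have s5 : Summable fun x => gz mx Z n x * ∑ z ∈ Z, qq mx z n x :=
    sm _ hf fun x h => by simp [h]
  have e5 : ∑' x, gz mx Z n x * ∑ z ∈ Z, qq mx z 0 x = ∑ z ∈ Z, gz mx Z n z := by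
    have e0 : ∀ z, ∑' x, gz mx Z n x * qq mx z 0 x = gz mx Z n z := by
      intro z
      rw [tsum_eq_single z]
      · have : qq mx z 0 z = 1 := if_pos rfl
        rw [this, mul_one]
      · intro x hx
        have : qq mx z 0 x = 0 := if_neg hx
        rw [this, mul_zero]
    simp only [Finset.mul_sum]
    rw [Summable.tsum_finsetSum fun z _ => s4 z]
    exact Finset.sum_congr rfl fun z _ => e0 z
  have e6 : 0 ≤ ∑' x, gz mx Z n x * ∑ z ∈ Z, qq mx z n x := tsum_nonneg fun x =>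
    mul_nonneg (gz_nonneg mx Z n x) (Finset.sum_nonneg fun z _ => qq_nonneg mx z n x)
  have e8 : ∀ x, ∑ s, gz mx Z n (mx x s) = (Fintype.card S : ℝ) *
      (gz mx Z n x - ∑ z ∈ Z, qq mx z 0 x + ∑ z ∈ Z, qq mx z n x) := by
    intro x
    unfold gz
    rw [Finset.sum_comm, Finset.sum_congr rfl fun z _ => P_gr mx z n x, ← Finset.mul_sum,
      Finset.sum_add_distrib, Finset.sum_sub_distrib]
  have e7 : ∑' x, gz mx Z n x * ∑ s, gz mx Z n (mx x s) = (Fintype.card S : ℝ) *
      (∑' x, gz mx Z n x ^ 2 - ∑' x, gz mx Z n x * ∑ z ∈ Z, qq mx z 0 x +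
        ∑' x, gz mx Z n x * ∑ z ∈ Z, qq mx z n x) := by
    rw [← Summable.tsum_sub s1 s4', ← Summable.tsum_add (s1.sub s4') s5, ← tsum_mul_left]
    refine tsum_congr fun x => ?_
    rw [e8]
    ring
  rw [e7, e5]
  have hc : (0 : ℝ) ≤ Fintype.card S := Nat.cast_nonneg _
  have h8 := mul_nonneg hc e6
  linarith

/-- Cauchy-Schwarz along a word -/
lemma word3 (h1 : ∀ s, inv (inv s) = s) (h2 : ∀ x s, mx (mx x s) (inv s) = x) (g : X → ℝ)
    (hs : ∀ s, Summable fun x => (g x - g (mx x s)) ^ 2) (B : ℝ) (hB : 0 ≤ B) (l : List S) :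
    ∀ V : Finset X, (V.card : ℝ) ≤ B ^ 2 → |∑ x ∈ V, (g x - g (run mx x l))| ≤
      l.length * (B * √(en mx g)) := by
  classical
  induction l with
  | nil =>
    intro V _
    simp [run]
  | cons s l ih =>
    intro V hV
    set V' := V.map (ev mx inv h1 h2 s).toEmbedding with hV'
    have h3 := ih V' (by rw [hV', Finset.card_map]; exact hV)
    rw [hV', Finset.sum_map] at h3
    have h4 : (∑ x ∈ V, (g x - g (mx x s))) ^ 2 ≤ (B * √(en mx g)) ^ 2 := by
      refine (sq_sum_le_card_mul_sum_sq).trans ?_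
      rw [mul_pow, Real.sq_sqrt (en_nonneg mx g)]
      have h5 : ∑ x ∈ V, (g x - g (mx x s)) ^ 2 ≤ en mx g := by
        refine ((hs s).sum_le_tsum V fun x _ => sq_nonneg _).trans ?_
        exact Finset.single_le_sum (f := fun s => ∑' x, (g x - g (mx x s)) ^ 2)
          (fun s _ => tsum_nonneg fun x => sq_nonneg _) (Finset.mem_univ s)
      exact mul_le_mul hV h5 (Finset.sum_nonneg fun x _ => sq_nonneg _) (by positivity)
    have h7 : |∑ x ∈ V, (g x - g (mx x s))| ≤ B * √(en mx g) :=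
      abs_le_of_sq_le_sq h4 (by positivity)
    have h8 : ∑ x ∈ V, (g x - g (run mx x (s :: l))) = ∑ x ∈ V, (g x - g (mx x s)) +
        ∑ x ∈ V, (g (mx x s) - g (run mx (mx x s) l)) := by
      rw [← Finset.sum_add_distrib]
      refine Finset.sum_congr rfl fun x _ => ?_
      rw [run_cons]
      ring
    rw [h8]
    refine (abs_add_le _ _).trans ?_
    rw [List.length_cons]
    push_cast
    have h9 : |∑ x ∈ V, (g (mx x s) - g (run mx (mx x s) l))| ≤
        l.length * (B * √(en mx g)) := h3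
    linarith

/-- the average over generation `k` -/
noncomputable def az (Z : Finset X) (w : Bool → List S) (g : X → ℝ) (k : ℕ) : ℝ :=
  (1 / 2) ^ k * ∑ u ∈ LL k, ∑ z ∈ Z, g (vtx mx z w u)

lemma az_inj (Z : Finset X) (w : Bool → List S)
    (hw : ∀ z ∈ Z, ∀ z' ∈ Z, ∀ u u' : List Bool, u.length = u'.length →
      vtx mx z w u = vtx mx z' w u' → u = u' ∧ z = z') (k : ℕ) :
    Set.InjOn (fun p : List Bool × X => vtx mx p.2 w p.1) (LL k ×ˢ Z : Finset (List Bool × X)) := by
  rintro ⟨u, z⟩ hp ⟨u', z'⟩ hp' h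
  rw [Finset.mem_coe, Finset.mem_product] at hp hp'
  obtain ⟨e1, e2⟩ := hw z hp.2 z' hp'.2 u u'
    ((LL_len k u hp.1).trans (LL_len k u' hp'.1).symm) h
  rw [e1, e2]

lemma az_step (h1 : ∀ s, inv (inv s) = s) (h2 : ∀ x s, mx (mx x s) (inv s) = x) (g : X → ℝ)
    (hs : ∀ s, Summable fun x => (g x - g (mx x s)) ^ 2) (Z : Finset X) (w : Bool → List S)
    (hw : ∀ z ∈ Z, ∀ z' ∈ Z, ∀ u u' : List Bool, u.length = u'.length →
      vtx mx z w u = vtx mx z' w u' → u = u' ∧ z = z')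
    (k : ℕ) : az mx Z w g k - az mx Z w g (k + 1) ≤
      ((w false).length + (w true).length) / 2 * ((3 / 4) ^ k * (√Z.card * √(en mx g))) := by
  classical
  set V := (LL k ×ˢ Z).image (fun p : List Bool × X => vtx mx p.2 w p.1) with hV
  have hinj := az_inj mx Z w hw k
  have hVc : V.card = 2 ^ k * Z.card := by
    rw [hV, Finset.card_image_of_injOn hinj, Finset.card_product, LL_card]
  have hB : (V.card : ℝ) ≤ ((3 / 2) ^ k * √Z.card) ^ 2 := by
    rw [hVc, mul_pow, Real.sq_sqrt (Nat.cast_nonneg _)]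
    push_cast
    have h6 : (2 : ℝ) ^ k ≤ ((3 / 2) ^ k) ^ 2 := by
      rw [← pow_mul, mul_comm k 2, pow_mul]
      exact pow_le_pow_left₀ (by norm_num) (by norm_num) k
    exact mul_le_mul_of_nonneg_right h6 (Nat.cast_nonneg _)
  have e1 : ∑ u ∈ LL (k + 1), ∑ z ∈ Z, g (vtx mx z w u) =
      ∑ u ∈ LL k, ∑ z ∈ Z, g (run mx (vtx mx z w u) (w false)) +
        ∑ u ∈ LL k, ∑ z ∈ Z, g (run mx (vtx mx z w u) (w true)) := by
    rw [LL, Finset.sum_union (LL_disj k), Finset.sum_map, Finset.sum_map]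
    rfl
  have e2 : ∀ a, ∑ u ∈ LL k, ∑ z ∈ Z, (g (vtx mx z w u) - g (run mx (vtx mx z w u) (w a))) =
      ∑ x ∈ V, (g x - g (run mx x (w a))) := by
    intro a
    rw [hV, Finset.sum_image hinj, Finset.sum_product]
  have h3 := word3 mx inv h1 h2 g hs _ (by positivity) (w false) V hB
  have h4 := word3 mx inv h1 h2 g hs _ (by positivity) (w true) V hB
  have h5 := le_of_abs_le h3
  have h6 := le_of_abs_le h4
  have e3 : az mx Z w g k - az mx Z w g (k + 1) = (1 / 2) ^ (k + 1) *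
      (∑ x ∈ V, (g x - g (run mx x (w false))) + ∑ x ∈ V, (g x - g (run mx x (w true)))) := by
    rw [← e2, ← e2, az, az, e1]
    simp only [Finset.sum_sub_distrib]
    ring
  rw [e3]
  have h7 : (1 / 2 : ℝ) ^ (k + 1) *
      (∑ x ∈ V, (g x - g (run mx x (w false))) + ∑ x ∈ V, (g x - g (run mx x (w true)))) ≤
      (1 / 2 : ℝ) ^ (k + 1) * ((w false).length * ((3 / 2) ^ k * √Z.card * √(en mx g)) +
        (w true).length * ((3 / 2) ^ k * √Z.card * √(en mx g))) :=
    mul_le_mul_of_nonneg_left (by linarith) (by positivity)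
  refine h7.trans (le_of_eq ?_)
  have e4 : (3 / 4 : ℝ) ^ k = (1 / 2) ^ k * (3 / 2) ^ k := by
    rw [← mul_pow]
    norm_num
  rw [e4]
  ring

/-- TRN3 -/
theorem trn3 : P_TRN3 := by
  classical
  intro X S _ _ mx inv h1 h2 w
  set L : ℝ := (w false).length + (w true).length with hL
  have hL0 : 0 ≤ L := by positivity
  refine ⟨8 * L ^ 2 * Fintype.card S, by positivity, fun Z hw n => ?_⟩
  set g := gz mx Z n with hg
  set c : ℝ := (Z.card : ℝ) with hc
  have hc0 : 0 ≤ c := Nat.cast_nonneg _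
  have hs := (en_gen mx inv h1 h2 g (gz_fin mx inv h1 h2 Z n)).1
  set T : ℝ := ∑ z ∈ Z, g z with hT
  have hD : en mx g ≤ 2 * Fintype.card S * T := en_gz mx inv h1 h2 Z n
  have hg0 : ∀ x, 0 ≤ g x := gz_nonneg mx Z n
  have hgs : Summable g := sm g (gz_fin mx inv h1 h2 Z n) fun _ h => h
  -- telescoping
  have ht : ∀ K : ℕ, az mx Z w g 0 - az mx Z w g K ≤ 2 * L * (√c * √(en mx g)) := by
    intro K
    have e1 : az mx Z w g 0 - az mx Z w g K =
        ∑ k ∈ Finset.range K, (az mx Z w g k - az mx Z w g (k + 1)) :=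
      (Finset.sum_range_sub' _ K).symm
    rw [e1]
    refine (Finset.sum_le_sum fun k _ => az_step mx inv h1 h2 g hs Z w hw k).trans ?_
    rw [← Finset.mul_sum, ← Finset.sum_mul]
    have h3 : ∑ k ∈ Finset.range K, (3 / 4 : ℝ) ^ k ≤ 4 := by
      have h4 := geom_sum_eq (x := (3 / 4 : ℝ)) (by norm_num) K
      rw [h4]
      have h5 : (0 : ℝ) ≤ (3 / 4) ^ K := by positivity
      rw [div_le_iff_of_neg (by norm_num)]
      linarith
    have h4 : (∑ k ∈ Finset.range K, (3 / 4 : ℝ) ^ k) * (√c * √(en mx g)) ≤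
        4 * (√c * √(en mx g)) :=
      mul_le_mul_of_nonneg_right h3 (by positivity)
    calc L / 2 * ((∑ k ∈ Finset.range K, (3 / 4 : ℝ) ^ k) * (√c * √(en mx g))) ≤
        L / 2 * (4 * (√c * √(en mx g))) := mul_le_mul_of_nonneg_left h4 (by positivity)
      _ = 2 * L * (√c * √(en mx g)) := by ring
  have ha : ∀ K : ℕ, az mx Z w g K ≤ (1 / 2) ^ K * (c * n) := by
    intro K
    unfold az
    refine mul_le_mul_of_nonneg_left ?_ (by positivity)
    have hinj := az_inj mx Z w hw K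
    rw [← Finset.sum_product' (f := fun u z => g (vtx mx z w u)),
      ← Finset.sum_image (f := g) hinj, hc, ← sum_gz mx inv h1 h2 Z n]
    exact hgs.sum_le_tsum _ fun x _ => hg0 x
  have h0 : az mx Z w g 0 = T := by
    simp [az, LL, vtx, hT]
  have hlim : T ≤ 2 * L * (√c * √(en mx g)) := by
    have h3 : Tendsto (fun K : ℕ => 2 * L * (√c * √(en mx g)) + (1 / 2 : ℝ) ^ K * (c * n)) atTop
        (𝓝 (2 * L * (√c * √(en mx g)) + 0 * (c * n))) :=
      tendsto_const_nhds.add ((tendsto_pow_atTop_nhds_zero_of_lt_one (by norm_num)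
        (by norm_num)).mul_const _)
    rw [zero_mul, add_zero] at h3
    refine ge_of_tendsto' h3 fun K => ?_
    have := ht K
    have := ha K
    rw [h0] at *
    linarith
  have hgo : 0 ≤ T := Finset.sum_nonneg fun z _ => hg0 z
  have h5 : √(en mx g) ^ 2 ≤ 2 * Fintype.card S * T := by
    rw [Real.sq_sqrt (en_nonneg mx g)]
    exact hD
  have h6 : T ^ 2 ≤ 8 * L ^ 2 * Fintype.card S * c * T := by
    calc T ^ 2 ≤ (2 * L * (√c * √(en mx g))) ^ 2 := pow_le_pow_left₀ hgo hlim 2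
      _ = 4 * L ^ 2 * (√c ^ 2 * √(en mx g) ^ 2) := by ring
      _ = 4 * L ^ 2 * c * √(en mx g) ^ 2 := by rw [Real.sq_sqrt hc0]; ring
      _ ≤ 4 * L ^ 2 * c * (2 * Fintype.card S * T) :=
        mul_le_mul_of_nonneg_left h5 (by positivity)
      _ = 8 * L ^ 2 * Fintype.card S * c * T := by ring
  change T ≤ _
  rcases hgo.eq_or_lt with h | h
  · rw [← h]
    positivity
  · rw [sq] at h6
    exact le_of_mul_le_mul_right h6 h

end Pool.Agent.W2helper85.FD
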